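import Pool.Agent.Y782.SA.Stm

/-! # SA-MAX: moments of the maximum of a Gaussian random walk -/

set_option autoImplicit false

open MeasureTheory ProbabilityTheory Set Filter Topology
open scoped NNReal ENNReal

namespace Pool.Agent.Y505.SA

/-- partial sums -/
def ps {D : ℕ} (i : ℕ) (x : Fin D → ℝ) : ℝ := ∑ l : Fin D, if (l : ℕ) < i then x l else 0

/-- flip the signs of the coordinates from `i` on -/
def fl {D : ℕ} (i : ℕ) (x : Fin D → ℝ) : Fin D → ℝ := fun l => if (l : ℕ) < i then x l else - x l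

/-- standard Gaussian measure -/
noncomputable abbrev mu (D : ℕ) : Measure (Fin D → ℝ) := Measure.pi fun _ => gaussianReal 0 1

lemma ps_meas {D : ℕ} (i : ℕ) : Measurable (ps (D := D) i) := by
  unfold ps
  refine Finset.measurable_sum _ fun l _ => ?_
  by_cases h : (l : ℕ) < i
  · simp only [h, if_true]; exact measurable_pi_apply l
  · simp only [h, if_false]; exact measurable_const

lemma fl_mp {D : ℕ} (i : ℕ) : MeasurePreserving (fl (D := D) i) (mu D) (mu D) := by
  have h := measurePreserving_pi (fun _ : Fin D => gaussianReal 0 1)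
    (fun _ : Fin D => gaussianReal 0 1)
    (f := fun (l : Fin D) (t : ℝ) => if (l : ℕ) < i then t else - t) (fun l => by
      by_cases h : (l : ℕ) < i
      · simp only [h, if_true]; exact MeasurePreserving.id _
      · simp only [h, if_false]
        refine ⟨measurable_neg, ?_⟩
        rw [gaussianReal_map_neg, neg_zero])
  exact h

lemma ps_fl {D : ℕ} {i j : ℕ} (h : j ≤ i) (x : Fin D → ℝ) : ps j (fl i x) = ps j x := by
  unfold ps fl
  refine Finset.sum_congr rfl fun l _ => ?_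
  by_cases hl : (l : ℕ) < j
  · rw [if_pos hl, if_pos hl, if_pos (hl.trans_le h)]
  · rw [if_neg hl, if_neg hl]

lemma ps_top {D : ℕ} (i : ℕ) (x : Fin D → ℝ) : ps D (fl i x) = 2 * ps i x - ps D x := by
  unfold ps fl
  rw [Finset.mul_sum, ← Finset.sum_sub_distrib]
  refine Finset.sum_congr rfl fun l _ => ?_
  rw [if_pos l.2, if_pos l.2]
  by_cases hl : (l : ℕ) < i
  · rw [if_pos hl, if_pos hl]; ring
  · rw [if_neg hl, if_neg hl]; ring

/-- running maximum -/
noncomputable def mx {D : ℕ} (x : Fin D → ℝ) : ℝ :=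
  (Finset.range (D + 1)).sup' ⟨0, by simp⟩ fun i => |ps i x|

lemma mx_meas {D : ℕ} : Measurable (mx (D := D)) := by
  unfold mx
  have h := Finset.measurable_sup' (s := Finset.range (D + 1)) ⟨0, by simp⟩
    (f := fun (i : ℕ) (x : Fin D → ℝ) => |ps i x|) (fun i _ => (ps_meas i).abs)
  convert h using 1
  ext x
  rw [Finset.sup'_apply]

lemma le_mx {D : ℕ} (x : Fin D → ℝ) {i : ℕ} (hi : i ≤ D) : |ps i x| ≤ mx x :=
  Finset.le_sup' (fun i => |ps i x|) (Finset.mem_range.2 (by omega))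

lemma mx_nonneg {D : ℕ} (x : Fin D → ℝ) : 0 ≤ mx x := (abs_nonneg _).trans (le_mx x (Nat.zero_le D))

/-- first passage at time `i` -/
def ev {D : ℕ} (a : ℝ) (i : ℕ) : Set (Fin D → ℝ) :=
  {x | a ≤ |ps i x| ∧ ∀ j, j < i → |ps j x| < a}

lemma ev_meas {D : ℕ} (a : ℝ) (i : ℕ) : MeasurableSet (ev (D := D) a i) := by
  have h : ev (D := D) a i = {x | a ≤ |ps i x|} ∩ ⋂ j ∈ Finset.range i, {x | |ps j x| < a} := by
    ext x
    simp [ev]
  rw [h]
  refine (measurableSet_le measurable_const (ps_meas i).abs).inter ?_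
  exact Finset.measurableSet_biInter _ fun j _ =>
    measurableSet_lt (ps_meas j).abs measurable_const

lemma ev_fl {D : ℕ} (a : ℝ) (i : ℕ) (x : Fin D → ℝ) : fl i x ∈ ev a i ↔ x ∈ ev a i := by
  unfold ev
  simp only [Set.mem_ofPred_eq, ps_fl le_rfl]
  refine and_congr_right fun _ => forall_congr' fun j => ?_
  refine forall_congr' fun hj => ?_
  rw [ps_fl hj.le]

lemma ev_le {D : ℕ} (a : ℝ) (i : ℕ) :
    mu D (ev a i) ≤ 2 * mu D (ev a i ∩ {x | a ≤ |ps D x|}) := by
  have hm : MeasurableSet (ev (D := D) a i ∩ {x | a ≤ |ps D x|}) :=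
    (ev_meas a i).inter (measurableSet_le measurable_const (ps_meas D).abs)
  have hsub : ev (D := D) a i ⊆ (ev a i ∩ {x | a ≤ |ps D x|}) ∪
      (fl i ⁻¹' (ev a i ∩ {x | a ≤ |ps D x|})) := by
    intro x hx
    by_cases h : a ≤ |ps D x|
    · exact Or.inl ⟨hx, h⟩
    · refine Or.inr ⟨(ev_fl a i x).2 hx, ?_⟩
      simp only [Set.mem_ofPred_eq]
      rw [ps_top]
      have h1 : a ≤ |ps i x| := hx.1
      push Not at h
      have h2 : |2 * ps i x| ≤ |2 * ps i x - ps D x| + |ps D x| := by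
        have := abs_add_le (2 * ps i x - ps D x) (ps D x)
        simpa using this
      rw [abs_mul, abs_two] at h2
      linarith
  calc mu D (ev a i) ≤ mu D (ev a i ∩ {x | a ≤ |ps D x|}) +
        mu D (fl i ⁻¹' (ev a i ∩ {x | a ≤ |ps D x|})) :=
        (measure_mono hsub).trans (measure_union_le _ _)
    _ = 2 * mu D (ev a i ∩ {x | a ≤ |ps D x|}) := by
        rw [(fl_mp i).measure_preimage hm.nullMeasurableSet]; ring

lemma levy {D : ℕ} (a : ℝ) :
    mu D {x | a ≤ mx x} ≤ 2 * mu D {x | a ≤ |ps D x|} := by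
  have hsub : {x : Fin D → ℝ | a ≤ mx x} ⊆ ⋃ i ∈ Finset.range (D + 1), ev a i := by
    intro x hx
    have hx' : a ≤ mx x := hx
    unfold mx at hx'
    rw [Finset.le_sup'_iff] at hx'
    obtain ⟨k, hk, hk2⟩ := hx'
    classical
    have hex : ∃ i, a ≤ |ps i x| := ⟨k, hk2⟩
    have h1 := Nat.find_spec hex
    have h2 : Nat.find hex ≤ k := Nat.find_min' hex hk2
    refine mem_iUnion₂.2 ⟨Nat.find hex, ?_, h1, fun j hj => ?_⟩
    · rw [Finset.mem_range] at hk ⊢; omega
    · exact not_le.1 (Nat.find_min hex hj)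
  have hdis : Set.PairwiseDisjoint (↑(Finset.range (D + 1)))
      (fun i => ev (D := D) a i ∩ {x | a ≤ |ps D x|}) := by
    intro i _ j _ hij
    rw [Function.onFun, Set.disjoint_left]
    rintro x ⟨hi, _⟩ ⟨hj, _⟩
    rcases lt_or_gt_of_ne hij with h | h
    · exact absurd hi.1 (not_le.2 (hj.2 i h))
    · exact absurd hj.1 (not_le.2 (hi.2 j h))
  calc mu D {x | a ≤ mx x} ≤ mu D (⋃ i ∈ Finset.range (D + 1), ev a i) := measure_mono hsub
    _ ≤ ∑ i ∈ Finset.range (D + 1), mu D (ev a i) := measure_biUnion_finset_le _ _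
    _ ≤ ∑ i ∈ Finset.range (D + 1), 2 * mu D (ev a i ∩ {x | a ≤ |ps D x|}) :=
        Finset.sum_le_sum fun i _ => ev_le a i
    _ = 2 * mu D (⋃ i ∈ Finset.range (D + 1), (ev a i ∩ {x | a ≤ |ps D x|})) := by
        rw [← Finset.mul_sum, measure_biUnion_finset hdis fun i _ =>
          (ev_meas a i).inter (measurableSet_le measurable_const (ps_meas D).abs)]
    _ ≤ 2 * mu D {x | a ≤ |ps D x|} := by
        gcongr
        intro x hx
        obtain ⟨i, _, h⟩ := mem_iUnion₂.1 hx
        exact h.2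

/-- law of a sum of independent standard Gaussians -/
lemma sum_law {Ω ι : Type} [MeasurableSpace Ω] {P : Measure Ω} [IsProbabilityMeasure P]
    {X : ι → Ω → ℝ} (hm : ∀ i, Measurable (X i)) (hi : iIndepFun X P)
    (hl : ∀ i, P.map (X i) = gaussianReal 0 1) (s : Finset ι) :
    P.map (∑ i ∈ s, X i) = gaussianReal 0 (s.card : ℝ≥0) := by
  classical
  induction s using Finset.induction_on with
  | empty =>
    simp only [Finset.sum_empty, Finset.card_empty, Nat.cast_zero, gaussianReal_zero_var]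
    rw [show (0 : Ω → ℝ) = fun _ => 0 from rfl, Measure.map_const]
    simp
  | insert a s ha ih =>
    rw [Finset.sum_insert ha, add_comm, Finset.card_insert_of_notMem ha]
    have h := gaussianReal_add_gaussianReal_of_indepFun
      (hi.indepFun_finsetSum_of_notMem hm ha) ih (hl a)
    rw [h]
    simp

lemma ps_law (D : ℕ) : (mu D).map (ps D) = gaussianReal 0 (D : ℝ≥0) := by
  have h := sum_law (P := mu D) (X := fun (i : Fin D) (x : Fin D → ℝ) => x i)
    (fun i => measurable_pi_apply i)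
    (iIndepFun_pi (μ := fun _ : Fin D => gaussianReal 0 1) (X := fun _ => id)
      (fun i => aemeasurable_id))
    (fun i => (measurePreserving_eval (fun _ : Fin D => gaussianReal 0 1) i).map_eq) Finset.univ
  rw [Finset.card_univ, Fintype.card_fin] at h
  rw [← h]
  congr 1
  ext x
  simp [ps, Finset.sum_apply]

lemma gauss_moment (D p : ℕ) :
    ∫⁻ t, ENNReal.ofReal (|t| ^ p) ∂(gaussianReal 0 (D : ℝ≥0)) =
      ENNReal.ofReal (Real.sqrt D ^ p) * ∫⁻ t, ENNReal.ofReal (|t| ^ p) ∂(gaussianReal 0 1) := by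
  have h : gaussianReal 0 (D : ℝ≥0) = (gaussianReal 0 1).map (fun t => Real.sqrt D * t) := by
    rw [gaussianReal_map_const_mul]
    congr 1
    · simp
    · ext
      simp [Real.sq_sqrt]
  rw [h, lintegral_map (by fun_prop) (by fun_prop), ← lintegral_const_mul _ (by fun_prop)]
  refine lintegral_congr fun t => ?_
  rw [abs_mul, abs_of_nonneg (Real.sqrt_nonneg _), mul_pow, ENNReal.ofReal_mul (by positivity)]

lemma moment_fin (p : ℕ) : ∫⁻ t, ENNReal.ofReal (|t| ^ p) ∂(gaussianReal 0 1) ≠ ∞ := by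
  rcases Nat.eq_zero_or_pos p with rfl | hp
  · simp
  have h := (memLp_id_gaussianReal (μ := 0) (v := 1) (p : ℝ≥0)).eLpNorm_lt_top
  have h2 := (eLpNorm_lt_top_iff_lintegral_rpow_enorm_lt_top
    (by exact_mod_cast hp.ne') (by simp)).1 h
  refine ne_of_lt (lt_of_le_of_lt (lintegral_mono fun t => ?_) h2)
  simp only [id_eq]
  rw [ENNReal.ofReal_pow (abs_nonneg t), Real.enorm_eq_ofReal_abs]
  simp

theorem max : Pool.Agent.Y782.SA.S_MAX := by
  intro p
  refine ⟨2 * (∫⁻ t, ENNReal.ofReal (|t| ^ p) ∂(gaussianReal 0 1)).toReal, by positivity, ?_⟩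
  intro Ω _ P _ D X hm hi hl
  set V : Ω → Fin D → ℝ := fun ω i => X i ω with hV
  have hVm : Measurable V := measurable_pi_iff.2 hm
  have hmap : P.map V = mu D := by
    have h := (iIndepFun_iff_map_fun_eq_pi_map (fun i => (hm i).aemeasurable)).1 hi
    rw [hV, h]
    congr 1
    ext i : 1
    exact hl i
  refine ⟨fun ω => mx (V ω), mx_meas.comp hVm, fun ω => mx_nonneg _, fun ω i hi' => le_mx (V ω) hi', ?_⟩
  have h1 : ∫⁻ ω, ENNReal.ofReal (mx (V ω) ^ p) ∂P = ∫⁻ x, ENNReal.ofReal (mx x ^ p) ∂(mu D) := by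
    rw [← hmap, lintegral_map ((mx_meas.pow_const p).ennreal_ofReal) hVm]
  rw [h1]
  have hfin := moment_fin p
  have hpos : ENNReal.ofReal (2 * (∫⁻ t, ENNReal.ofReal (|t| ^ p) ∂(gaussianReal 0 1)).toReal *
      Real.sqrt D ^ p) = 2 * (ENNReal.ofReal (Real.sqrt D ^ p) *
        ∫⁻ t, ENNReal.ofReal (|t| ^ p) ∂(gaussianReal 0 1)) := by
    rw [ENNReal.ofReal_mul (by positivity), ENNReal.ofReal_mul (by norm_num),
      ENNReal.ofReal_toReal hfin]
    simp
    ring
  rw [hpos, ← gauss_moment, ← ps_law, lintegral_map (by fun_prop) (ps_meas D)]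
  rcases Nat.eq_zero_or_pos p with rfl | hp
  · simp
  have hp' : (0 : ℝ) < p := by exact_mod_cast hp
  have e1 := lintegral_rpow_eq_lintegral_meas_le_mul (μ := mu D)
    (Eventually.of_forall fun x => mx_nonneg x) (mx_meas (D := D)).aemeasurable hp'
  have e2 := lintegral_rpow_eq_lintegral_meas_le_mul (μ := mu D)
    (Eventually.of_forall fun x => abs_nonneg (ps D x)) (ps_meas D).abs.aemeasurable hp'
  simp only [Real.rpow_natCast] at e1 e2
  rw [e1, e2, mul_left_comm]
  refine mul_le_mul_right ?_ _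
  rw [← lintegral_const_mul' _ _ (by simp)]
  refine lintegral_mono fun t => ?_
  rw [← mul_assoc]
  exact mul_le_mul_left (levy t) _

end Pool.Agent.Y505.SA
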