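import Pool.Agent.Y782.SA.Stm

/-! # SA-MOM: uniform moment bound for the roughness constant of the step path -/

set_option autoImplicit false

open MeasureTheory ProbabilityTheory Set Filter Topology
open scoped NNReal ENNReal

namespace Pool.Agent.Y505.SA

open Pool.Agent.Y782.SA

lemma pow_sum_le {ι : Type} [Fintype ι] (f : ι → ℝ) (hf : ∀ i, 0 ≤ f i) :
    (∑ i, f i) ^ 16 ≤ (Fintype.card ι : ℝ) ^ 15 * ∑ i, f i ^ 16 := by
  rcases isEmpty_or_nonempty ι with h | h
  · simp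
  have h2 := pow_sum_div_card_le_sum_pow (s := (Finset.univ : Finset ι)) (f := f)
    (fun i _ => hf i) 15
  rw [Finset.card_univ] at h2
  have hc : (0 : ℝ) < (Fintype.card ι : ℝ) ^ 15 := by
    have : 0 < Fintype.card ι := Fintype.card_pos
    positivity
  rw [div_le_iff₀ hc] at h2
  exact h2.trans (le_of_eq (mul_comm _ _))

lemma reindex {n : ℕ} (g : Fin n → ℝ) (a i D : ℕ) (hi : i ≤ D) :
    (∑ k : Fin n, if a ≤ (k : ℕ) ∧ (k : ℕ) < a + i then g k else 0) =
      ∑ l : Fin (min D (n - a)), if (l : ℕ) < min i (min D (n - a)) then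
        g ⟨a + l, by have := l.2; omega⟩ else 0 := by
  classical
  set f : ℕ → ℝ := fun k => if h : k < n then g ⟨k, h⟩ else 0 with hf
  have e1 : (∑ k : Fin n, if a ≤ (k : ℕ) ∧ (k : ℕ) < a + i then g k else 0) =
      ∑ k ∈ Finset.range n, if a ≤ k ∧ k < a + i then f k else 0 := by
    rw [← Fin.sum_univ_eq_sum_range (fun k => if a ≤ k ∧ k < a + i then f k else 0) n]
    refine Finset.sum_congr rfl fun k _ => ?_
    simp [hf, k.2]
  have e2 : (∑ l : Fin (min D (n - a)), if (l : ℕ) < min i (min D (n - a)) then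
        g ⟨a + l, by have := l.2; omega⟩ else 0) =
      ∑ l ∈ Finset.range (min D (n - a)), if l < min i (min D (n - a)) then f (a + l) else 0 := by
    rw [← Fin.sum_univ_eq_sum_range
      (fun l => if l < min i (min D (n - a)) then f (a + l) else 0) (min D (n - a))]
    refine Finset.sum_congr rfl fun l _ => ?_
    have h : a + (l : ℕ) < n := by have := l.2; omega
    simp [hf, h]
  rw [e1, e2, ← Finset.sum_filter, ← Finset.sum_filter]
  refine Finset.sum_nbij' (fun k => k - a) (fun l => a + l) ?_ ?_ ?_ ?_ ?_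
  · intro k hk
    simp only [Finset.mem_filter, Finset.mem_range] at hk ⊢
    omega
  · intro l hl
    simp only [Finset.mem_filter, Finset.mem_range] at hl ⊢
    omega
  · intro k hk
    simp only [Finset.mem_filter, Finset.mem_range] at hk
    omega
  · intro l hl
    omega
  · intro k hk
    simp only [Finset.mem_filter, Finset.mem_range] at hk
    congr 1
    omega

section path

variable {E : Type} [NormedAddCommGroup E] [InnerProductSpace ℝ E] {ι : Type} [Fintype ι]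

lemma step_diff (A : ι → E →L[ℝ] E) {D n : ℕ} (hD : 1 ≤ D) (ξ : Fin n × ι → ℝ) (j : ℕ) {x : ℝ}
    (hx : x ∈ Icc (j : ℝ) (j + 1)) :
    ∃ i : ℕ, i ≤ D ∧ stepW A D n ξ x - stepW A D n ξ j =
      ∑ α : ι, ((∑ k : Fin n, if j * D ≤ (k : ℕ) ∧ (k : ℕ) < j * D + i then ξ (k, α) else 0) /
        Real.sqrt D) • A α := by
  have hD0 : (0 : ℝ) < D := by exact_mod_cast hD
  have hjx : j * D ≤ ⌊x * D⌋₊ := by
    apply Nat.le_floor
    push_cast
    exact mul_le_mul_of_nonneg_right hx.1 hD0.le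
  have hx0 : 0 ≤ x := (Nat.cast_nonneg j).trans hx.1
  have hxj : ⌊x * D⌋₊ ≤ j * D + D := by
    have h : ⌊x * D⌋₊ ≤ ⌊(((j * D + D : ℕ) : ℕ) : ℝ)⌋₊ := by
      apply Nat.floor_mono
      push_cast
      nlinarith [hx.2]
    rwa [Nat.floor_natCast] at h
  refine ⟨⌊x * D⌋₊ - j * D, by omega, ?_⟩
  unfold stepW
  rw [← Finset.sum_sub_distrib, Fintype.sum_prod_type, Finset.sum_comm]
  refine Finset.sum_congr rfl fun α _ => ?_
  rw [Finset.sum_div, Finset.sum_smul]
  refine Finset.sum_congr rfl fun k _ => ?_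
  have c1 : (((k : ℕ) + 1 : ℝ) / D ≤ x) ↔ (k : ℕ) + 1 ≤ ⌊x * D⌋₊ := by
    rw [div_le_iff₀ hD0, Nat.le_floor_iff (by positivity)]
    push_cast
    rfl
  have c2 : (((k : ℕ) + 1 : ℝ) / D ≤ j) ↔ (k : ℕ) + 1 ≤ j * D := by
    rw [div_le_iff₀ hD0]
    exact_mod_cast Iff.rfl
  simp only [c1, c2]
  by_cases h1 : (k : ℕ) + 1 ≤ j * D
  · rw [if_pos h1, if_pos (h1.trans hjx), if_neg (by omega)]
    simp
  · by_cases h2 : (k : ℕ) + 1 ≤ ⌊x * D⌋₊
    · rw [if_neg h1, if_pos h2, if_pos (by omega)]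
      simp
    · rw [if_neg h1, if_neg h2, if_neg (by omega)]
      simp

end path

lemma pol (Z : ℝ) (hZ : 0 ≤ Z) : (2 * Z + 32 * Z ^ 2) ^ 8 ≤ 2 ^ 48 * (1 + Z ^ 16) := by
  have h1 : Z ≤ 1 ∨ 1 ≤ Z := le_total _ _
  rcases h1 with h | h
  · have h2 : 2 * Z + 32 * Z ^ 2 ≤ 34 := by nlinarith
    have h3 : (2 * Z + 32 * Z ^ 2) ^ 8 ≤ 34 ^ 8 := pow_le_pow_left₀ (by positivity) h2 8
    have h4 : (0 : ℝ) ≤ Z ^ 16 := by positivity
    norm_num at h3 ⊢
    linarith
  · have h2 : 2 * Z + 32 * Z ^ 2 ≤ 34 * Z ^ 2 := by nlinarith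
    have h3 : (2 * Z + 32 * Z ^ 2) ^ 8 ≤ (34 * Z ^ 2) ^ 8 := pow_le_pow_left₀ (by positivity) h2 8
    have h4 : (0 : ℝ) ≤ Z ^ 16 := by positivity
    have h5 : (34 * Z ^ 2) ^ 8 = 34 ^ 8 * Z ^ 16 := by ring
    rw [h5] at h3
    norm_num at h3 ⊢
    linarith

/-- weights of the windows -/
noncomputable def wt (κ : ℝ) (j : ℕ) : ℝ := (if j = 0 then 1 else 0) + 16 / κ ^ 4 * (1 / (j : ℝ) ^ 4)

lemma wt_nonneg {κ : ℝ} (j : ℕ) : 0 ≤ wt κ j := by
  unfold wt
  have : (0 : ℝ) ≤ κ ^ 4 := by positivity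
  split_ifs <;> positivity

lemma wt_sum (κ : ℝ) : Summable (wt κ) := by
  unfold wt
  refine Summable.add ?_ ((Real.summable_one_div_nat_pow.2 (by norm_num)).mul_left _)
  refine summable_of_hasFiniteSupport ?_
  refine (Set.finite_singleton (0 : ℕ)).subset fun j hj => ?_
  by_contra h
  exact hj (by simp only [Set.mem_singleton_iff] at h; simp [h])

lemma cj {κ : ℝ} (hκ : 0 < κ) (j : ℕ) (Z : ℝ) (hZ : 0 ≤ Z) :
    (max 0 (2 * Z + 32 * Z ^ 2 - κ * j / 2)) ^ 4 ≤ 2 ^ 49 * wt κ j * (1 + Z ^ 16) := by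
  have hp := pol Z hZ
  set y := 2 * Z + 32 * Z ^ 2 with hy
  have hy0 : 0 ≤ y := by positivity
  have hZ16 : (0 : ℝ) ≤ Z ^ 16 := by positivity
  rcases Nat.eq_zero_or_pos j with rfl | hj
  · have e : wt κ 0 = 1 := by simp [wt]
    rw [e]
    have h1 : max 0 (y - κ * ((0 : ℕ) : ℝ) / 2) = y := by simp [hy0]
    rw [h1]
    have h2 : y ^ 4 ≤ 1 + y ^ 8 := by nlinarith [sq_nonneg (y ^ 4 - 1), sq_nonneg (y ^ 4)]
    norm_num at hp ⊢
    linarith
  · have hj' : (0 : ℝ) < j := by exact_mod_cast hj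
    have e : wt κ j = 16 / κ ^ 4 * (1 / (j : ℝ) ^ 4) := by simp [wt, hj.ne']
    rw [e]
    set a := κ * j / 2 with ha
    have ha0 : 0 < a := by positivity
    have ea : 16 / κ ^ 4 * (1 / (j : ℝ) ^ 4) = 1 / a ^ 4 := by
      rw [ha]; field_simp; ring
    rw [ea]
    rcases le_total y a with h | h
    · rw [max_eq_left (by linarith), zero_pow (by norm_num)]
      positivity
    · rw [max_eq_right (by linarith)]
      have h1 : (y - a) ^ 4 ≤ y ^ 4 := pow_le_pow_left₀ (by linarith) (by linarith) 4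
      have h2 : y ^ 4 * a ^ 4 ≤ y ^ 8 := by
        have : a ^ 4 ≤ y ^ 4 := pow_le_pow_left₀ ha0.le h 4
        nlinarith [pow_nonneg hy0 4]
      have h3 : y ^ 4 ≤ y ^ 8 / a ^ 4 := by rw [le_div_iff₀ (by positivity)]; exact h2
      have h4 : y ^ 8 / a ^ 4 ≤ 2 ^ 49 * (1 + Z ^ 16) / a ^ 4 := by
        gcongr
        norm_num at hp ⊢
        linarith
      calc (y - a) ^ 4 ≤ 2 ^ 49 * (1 + Z ^ 16) / a ^ 4 := h1.trans (h3.trans h4)
        _ = 2 ^ 49 * (1 / a ^ 4) * (1 + Z ^ 16) := by ring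

lemma cj_ex {κ : ℝ} (hκ : 0 < κ) : ∃ M : ℝ, 0 ≤ M ∧ ∀ (j : ℕ) (Z : ℝ), 0 ≤ Z →
    (max 0 (2 * Z + 32 * Z ^ 2 - κ * j / 2)) ^ 4 ≤ M * wt κ j * (1 + Z ^ 16) :=
  ⟨2 ^ 49, by norm_num, fun j Z hZ => cj hκ j Z hZ⟩

theorem mom (hmax : S_MAX) : S_MOM := by
  intro E _ _ _ ι _ A κ hκ
  obtain ⟨M, hM0, hcj⟩ := cj_ex hκ
  obtain ⟨K0, hK0, hMX⟩ := hmax 16
  have hNA : ∀ α : ι, 0 ≤ ‖A α‖ := fun α => norm_nonneg _
  obtain ⟨K1, hK1⟩ : ∃ K1 : ℝ, K1 = (Fintype.card ι : ℝ) ^ 15 * ∑ α : ι, ‖A α‖ ^ 16 * K0 :=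
    ⟨_, rfl⟩
  have hK1' : 0 ≤ K1 := by
    rw [hK1]
    exact mul_nonneg (pow_nonneg (Nat.cast_nonneg _) _)
      (Finset.sum_nonneg fun α _ => mul_nonneg (pow_nonneg (hNA α) _) hK0)
  have hts : 0 ≤ ∑' j, wt κ j := tsum_nonneg fun j => wt_nonneg j
  refine ⟨(∑' j, wt κ j) * (M * (1 + K1)),
    mul_nonneg hts (mul_nonneg hM0 (by linarith)), ?_⟩
  intro D n hD
  have hD0 : (0 : ℝ) < D := by exact_mod_cast hD
  set G : Measure (Fin n × ι → ℝ) := Measure.pi fun _ : Fin n × ι => gaussianReal 0 1 with hG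
  have hI : iIndepFun (fun (p : Fin n × ι) (ξ : Fin n × ι → ℝ) => ξ p) G :=
    iIndepFun_pi (μ := fun _ : Fin n × ι => gaussianReal 0 1) (X := fun _ => id)
      (fun i => aemeasurable_id)
  have hY : ∀ (j : ℕ) (α : ι), ∃ Y : (Fin n × ι → ℝ) → ℝ, Measurable Y ∧ (∀ ξ, 0 ≤ Y ξ) ∧
      (∀ ξ, ∀ i : ℕ, i ≤ D →
        |∑ k : Fin n, if j * D ≤ (k : ℕ) ∧ (k : ℕ) < j * D + i then ξ (k, α) else 0| ≤ Y ξ) ∧
      ∫⁻ ξ, ENNReal.ofReal (Y ξ ^ 16) ∂G ≤ ENNReal.ofReal (K0 * Real.sqrt D ^ 16) := by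
    intro j α
    obtain ⟨Y, hYm, hY0, hY1, hY2⟩ := hMX (Fin n × ι → ℝ) G (min D (n - j * D))
      (fun l ξ => ξ (⟨j * D + l, by have := l.2; omega⟩, α))
      (fun l => measurable_pi_apply _)
      (hI.precomp (g := fun l : Fin (min D (n - j * D)) =>
        ((⟨j * D + l, by have := l.2; omega⟩ : Fin n), α)) (fun l l' h => by
          simp only [Prod.mk.injEq, Fin.mk.injEq, and_true] at h
          exact Fin.ext (by omega)))
      (fun l => (measurePreserving_eval (fun _ : Fin n × ι => gaussianReal 0 1) _).map_eq)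
    refine ⟨Y, hYm, hY0, fun ξ i hi => ?_, hY2.trans (ENNReal.ofReal_le_ofReal ?_)⟩
    · rw [reindex (fun k => ξ (k, α)) (j * D) i D hi]
      exact hY1 ξ (min i (min D (n - j * D))) (min_le_right _ _)
    · gcongr
      exact min_le_left _ _
  choose Y hYm hY0 hY1 hY2 using hY
  set Z : ℕ → (Fin n × ι → ℝ) → ℝ := fun j ξ => ∑ α, ‖A α‖ * (Y j α ξ / Real.sqrt D) with hZ
  have hZm : ∀ j, Measurable (Z j) := fun j => by
    refine Finset.measurable_sum _ fun α _ => ?_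
    exact ((hYm j α).div_const _).const_mul _
  have hZ0 : ∀ j ξ, 0 ≤ Z j ξ := fun j ξ => Finset.sum_nonneg fun α _ =>
    mul_nonneg (norm_nonneg _) (div_nonneg (hY0 j α ξ) (Real.sqrt_nonneg _))
  have hZ16 : ∀ j, ∫⁻ ξ, ENNReal.ofReal (Z j ξ ^ 16) ∂G ≤ ENNReal.ofReal K1 := by
    intro j
    have hs : (0 : ℝ) < Real.sqrt D ^ 16 := by positivity
    calc ∫⁻ ξ, ENNReal.ofReal (Z j ξ ^ 16) ∂G
        ≤ ∫⁻ ξ, ENNReal.ofReal ((Fintype.card ι : ℝ) ^ 15) *
            ∑ α, ENNReal.ofReal (‖A α‖ ^ 16 / Real.sqrt D ^ 16) * ENNReal.ofReal (Y j α ξ ^ 16) ∂G := by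
          refine lintegral_mono fun ξ => ?_
          have h := pow_sum_le (fun α => ‖A α‖ * (Y j α ξ / Real.sqrt D)) (fun α =>
            mul_nonneg (norm_nonneg _) (div_nonneg (hY0 j α ξ) (Real.sqrt_nonneg _)))
          refine (ENNReal.ofReal_le_ofReal h).trans ?_
          rw [ENNReal.ofReal_mul (by positivity), ENNReal.ofReal_sum_of_nonneg (fun α _ => by
            have := hY0 j α ξ; positivity)]
          gcongr with α
          rw [← ENNReal.ofReal_mul (by positivity)]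
          refine ENNReal.ofReal_le_ofReal (le_of_eq ?_)
          rw [mul_pow, div_pow]
          ring
      _ = ENNReal.ofReal ((Fintype.card ι : ℝ) ^ 15) *
            ∑ α, ENNReal.ofReal (‖A α‖ ^ 16 / Real.sqrt D ^ 16) *
              ∫⁻ ξ, ENNReal.ofReal (Y j α ξ ^ 16) ∂G := by
          rw [lintegral_const_mul _ (by
            refine Finset.measurable_sum _ fun α _ => ?_
            exact (((hYm j α).pow_const 16).ennreal_ofReal).const_mul _),
            lintegral_finsetSum _ (fun α _ => (((hYm j α).pow_const 16).ennreal_ofReal).const_mul _)]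
          congr 1
          refine Finset.sum_congr rfl fun α _ => ?_
          rw [lintegral_const_mul _ (((hYm j α).pow_const 16).ennreal_ofReal)]
      _ ≤ ENNReal.ofReal ((Fintype.card ι : ℝ) ^ 15) *
            ∑ α, ENNReal.ofReal (‖A α‖ ^ 16 / Real.sqrt D ^ 16) *
              ENNReal.ofReal (K0 * Real.sqrt D ^ 16) := by
          gcongr with α
          exact hY2 j α
      _ = ENNReal.ofReal K1 := by
          rw [hK1, ENNReal.ofReal_mul (p := (Fintype.card ι : ℝ) ^ 15)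
            (q := ∑ α, ‖A α‖ ^ 16 * K0) (pow_nonneg (Nat.cast_nonneg _) _),
            ENNReal.ofReal_sum_of_nonneg (fun α _ => mul_nonneg (pow_nonneg (hNA α) _) hK0)]
          congr 1
          refine Finset.sum_congr rfl fun α _ => ?_
          rw [← ENNReal.ofReal_mul (by positivity)]
          congr 1
          field_simp
  set c : ℕ → (Fin n × ι → ℝ) → ℝ := fun j ξ =>
    max 0 (2 * Z j ξ + 32 * Z j ξ ^ 2 - κ * j / 2) with hc
  have hcm : ∀ j, Measurable (c j) := fun j => by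
    refine measurable_const.max ?_
    exact (((hZm j).const_mul 2).add (((hZm j).pow_const 2).const_mul 32)).sub_const _
  have hc0 : ∀ j ξ, 0 ≤ c j ξ := fun j ξ => le_max_left _ _
  have hS0 : ∀ ξ, 0 ≤ ∑ j ∈ Finset.range n, c j ξ ^ 4 := fun ξ =>
    Finset.sum_nonneg fun j _ => pow_nonneg (hc0 j ξ) 4
  refine ⟨fun ξ => Real.sqrt (Real.sqrt (∑ j ∈ Finset.range n, c j ξ ^ 4)), ?_, fun ξ =>
    Real.sqrt_nonneg _, ?_, ?_⟩
  · exact ((Finset.measurable_sum _ fun j _ => (hcm j).pow_const 4).sqrt).sqrt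
  · intro ξ j x hx
    obtain ⟨i, hi, hdiff⟩ := step_diff A hD ξ j hx
    have hnorm : ‖stepW A D n ξ x - stepW A D n ξ j‖ ≤ Z j ξ := by
      rw [hdiff]
      refine (norm_sum_le _ _).trans (Finset.sum_le_sum fun α _ => ?_)
      rw [norm_smul, mul_comm, Real.norm_eq_abs, abs_div, abs_of_nonneg (Real.sqrt_nonneg _)]
      gcongr
      exact hY1 j α ξ i hi
    rcases lt_or_ge j n with hjn | hjn
    · have h1 : c j ξ ≤ Real.sqrt (Real.sqrt (∑ j ∈ Finset.range n, c j ξ ^ 4)) := by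
        refine Real.le_sqrt_of_sq_le (Real.le_sqrt_of_sq_le ?_)
        rw [← pow_mul]
        exact Finset.single_le_sum (f := fun j => c j ξ ^ 4) (fun j _ => pow_nonneg (hc0 j ξ) 4)
          (Finset.mem_range.2 hjn)
      have h2 : 2 * Z j ξ + 32 * Z j ξ ^ 2 - κ * j / 2 ≤ c j ξ := le_max_right _ _
      have h3 : 2 * ‖stepW A D n ξ x - stepW A D n ξ j‖ +
          32 * ‖stepW A D n ξ x - stepW A D n ξ j‖ ^ 2 ≤ 2 * Z j ξ + 32 * Z j ξ ^ 2 := by
        gcongr
      linarith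
    · have h0 : stepW A D n ξ x - stepW A D n ξ j = 0 := by
        rw [hdiff]
        refine Finset.sum_eq_zero fun α _ => ?_
        have : (∑ k : Fin n, if j * D ≤ (k : ℕ) ∧ (k : ℕ) < j * D + i then ξ (k, α) else 0) = 0 := by
          refine Finset.sum_eq_zero fun k _ => if_neg ?_
          have h1 := k.2
          have h2 : j ≤ j * D := Nat.le_mul_of_pos_right j hD
          omega
        rw [this]
        simp
      rw [h0]
      have h1 := Real.sqrt_nonneg (Real.sqrt (∑ j ∈ Finset.range n, c j ξ ^ 4))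
      have h2 : 0 ≤ κ * j / 2 := by positivity
      simp only [norm_zero]
      linarith
  · have hpow : ∀ ξ, Real.sqrt (Real.sqrt (∑ j ∈ Finset.range n, c j ξ ^ 4)) ^ 4 =
        ∑ j ∈ Finset.range n, c j ξ ^ 4 := by
      intro ξ
      rw [show (4 : ℕ) = 2 * 2 from rfl, pow_mul, Real.sq_sqrt (Real.sqrt_nonneg _),
        Real.sq_sqrt (hS0 ξ)]
    simp only [hpow]
    calc ∫⁻ ξ, ENNReal.ofReal (∑ j ∈ Finset.range n, c j ξ ^ 4) ∂G
        = ∑ j ∈ Finset.range n, ∫⁻ ξ, ENNReal.ofReal (c j ξ ^ 4) ∂G := by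
          rw [← lintegral_finsetSum _ (fun j _ => ((hcm j).pow_const 4).ennreal_ofReal)]
          refine lintegral_congr fun ξ => ?_
          rw [ENNReal.ofReal_sum_of_nonneg fun j _ => pow_nonneg (hc0 j ξ) 4]
      _ ≤ ∑ j ∈ Finset.range n, ENNReal.ofReal (wt κ j * (M * (1 + K1))) := by
          refine Finset.sum_le_sum fun j _ => ?_
          have hw := wt_nonneg (κ := κ) j
          calc ∫⁻ ξ, ENNReal.ofReal (c j ξ ^ 4) ∂G
              ≤ ∫⁻ ξ, ENNReal.ofReal (M * wt κ j) * (1 + ENNReal.ofReal (Z j ξ ^ 16)) ∂G := by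
                refine lintegral_mono fun ξ => ?_
                refine (ENNReal.ofReal_le_ofReal (hcj j (Z j ξ) (hZ0 j ξ))).trans (le_of_eq ?_)
                rw [ENNReal.ofReal_mul (by positivity), ENNReal.ofReal_add (by norm_num)
                  (by have := hZ0 j ξ; positivity), ENNReal.ofReal_one]
            _ = ENNReal.ofReal (M * wt κ j) * (1 + ∫⁻ ξ, ENNReal.ofReal (Z j ξ ^ 16) ∂G) := by
                rw [lintegral_const_mul _ (by
                  exact measurable_const.add ((hZm j).pow_const 16).ennreal_ofReal),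
                  lintegral_add_left measurable_const]
                simp
            _ ≤ ENNReal.ofReal (M * wt κ j) * (1 + ENNReal.ofReal K1) := by
                gcongr
                exact hZ16 j
            _ = ENNReal.ofReal (wt κ j * (M * (1 + K1))) := by
                rw [← ENNReal.ofReal_one, ← ENNReal.ofReal_add (by norm_num) hK1',
                  ← ENNReal.ofReal_mul (by positivity)]
                congr 1
                ring
      _ = ENNReal.ofReal ((∑ j ∈ Finset.range n, wt κ j) * (M * (1 + K1))) := by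
          rw [Finset.sum_mul, ENNReal.ofReal_sum_of_nonneg fun j _ => by
            have := wt_nonneg (κ := κ) j; positivity]
      _ ≤ ENNReal.ofReal ((∑' j, wt κ j) * (M * (1 + K1))) := by
          refine ENNReal.ofReal_le_ofReal ?_
          gcongr
          exact (wt_sum κ).sum_le_tsum _ fun j _ => wt_nonneg j

end Pool.Agent.Y505.SA
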